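import Pool.Agent.H7.NG.Stmts

/-!
# Row CMQ of the board ng19 (MP_fd41b2_co): together
-/

set_option autoImplicit false

open Finset

namespace Pool.NG7

open Pool.Agent.H23.KT Pool.Agent.H46.KW Pool.KQ Pool.GT7 Pool.GU7 Pool.HZ7 Pool.IA7

theorem cmq_ch {p w : ℕ} (hw : w < p) :
    (p + 1) * p.choose (w + 1) < (p + 2).choose (w + 1) * (p - w) := by
  have e1 : p.choose (w + 1) * (p + 1) = (p + 1).choose (w + 1) * (p + 1 - (w + 1)) :=
    Nat.choose_mul_succ_eq p (w + 1)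
  have e2 : (p + 1).choose (w + 1) * (p + 1 + 1) =
      (p + 1 + 1).choose (w + 1) * (p + 1 + 1 - (w + 1)) :=
    Nat.choose_mul_succ_eq (p + 1) (w + 1)
  obtain ⟨d, hd⟩ : ∃ d, p = w + 1 + d := ⟨p - (w + 1), by omega⟩
  have s1 : p + 1 - (w + 1) = d + 1 := by omega
  have s2 : p + 1 + 1 - (w + 1) = d + 2 := by omega
  have s3 : p - w = d + 1 := by omega
  rw [s1] at e1
  rw [s2] at e2
  rw [s3]
  have hc : 0 < (p + 2).choose (w + 1) := Nat.choose_pos (by omega)
  have e3 : (p + 2) * ((p + 1) * p.choose (w + 1)) =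
      (p + 2).choose (w + 1) * (d + 1) * (d + 2) := by
    calc (p + 2) * ((p + 1) * p.choose (w + 1)) = (p + 2) * (p.choose (w + 1) * (p + 1)) := by ring
      _ = (p + 2) * ((p + 1).choose (w + 1) * (d + 1)) := by rw [e1]
      _ = ((p + 1).choose (w + 1) * (p + 1 + 1)) * (d + 1) := by ring
      _ = ((p + 1 + 1).choose (w + 1) * (d + 2)) * (d + 1) := by rw [e2]
      _ = _ := by ring
  have e4 : (p + 2).choose (w + 1) * (d + 1) * (d + 2) <
      (p + 2).choose (w + 1) * (d + 1) * (p + 2) :=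
    Nat.mul_lt_mul_of_pos_left (by omega) (Nat.mul_pos hc (by omega))
  refine Nat.lt_of_mul_lt_mul_left (a := p + 2) ?_
  rw [e3]
  calc _ < _ := e4
    _ = _ := by ring

/-- Both cases give a core. -/
theorem cmq_bk (hJ : Pool.KC7.BKJStmt) (hT : Pool.ME7.BKTStmt) (p w r : ℕ) (hp2 : 2 ≤ p)
    (hw1 : 1 ≤ w) (hwp : w ≤ p) (hr : r ≤ p + 1) (hs1 : (w + 1) * (p + 3 - r) < 2 * r)
    (hs2 : 2 * r * (w + 3) * (r - 1).choose (w + 1) +
      (w + 2) * (w + 1) * (p + 3 - r) * (p + 2).choose (w + 1) <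
        2 * r * (w + 3) * (p + 2).choose (w + 1)) : BK p w r := by
  by_cases hrp : r ≤ p
  · by_cases hc : w = 1 → 6 ≤ p
    · exact hJ p w r ⟨hw1, hwp, hrp, hs1, hs2, hc⟩
    · have hc' : w = 1 ∧ p < 6 := by
        by_contra hcon
        apply hc
        intro h
        by_contra h'
        exact hcon ⟨h, by omega⟩
      obtain ⟨rfl, hp6⟩ := hc'
      refine hT p 1 r ⟨hw1, hwp, hr, hp2, ?_⟩
      interval_cases p
      · omega
      · omega
      · have : r = 4 := by omega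
        subst this
        decide
      · have : r = 5 := by omega
        subst this
        decide
  · have hr1 : r = p + 1 := by omega
    subst hr1
    have s1 : p + 3 - (p + 1) = 2 := by omega
    rw [s1] at hs1
    have hw : w < p := by omega
    have hch := cmq_ch hw
    refine hT p w (p + 1) ⟨hw1, hwp, le_rfl, hp2, ?_⟩
    rw [s1]
    have s2 : p + 1 - 1 = p := by omega
    rw [s2]
    obtain ⟨d, hd⟩ : ∃ d, p = w + 1 + d := ⟨p - (w + 1), by omega⟩
    have s3 : p - w = d + 1 := by omega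
    rw [s3] at hch
    have e5 : (p + 2).choose (w + 1) * (2 * (p + 1)) =
        2 * ((p + 2).choose (w + 1) * (d + 1)) + (p + 2).choose (w + 1) * ((w + 1) * 2) := by
      have : p + 1 = (d + 1) + (w + 1) := by omega
      rw [this]
      ring
    rw [e5]
    have e6 : 2 * (p + 1) * p.choose (w + 1) = 2 * ((p + 1) * p.choose (w + 1)) := by ring
    rw [e6]
    omega

/-- Row CMQ. -/
theorem cmq_thm : CMQStmt := by
  intro hF hX hC hJ hT p w r hp2 hw1 hwp hr hs1 hs2
  have hBK := cmq_bk hJ hT p w r hp2 hw1 hwp hr hs1 hs2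
  have hrb : p + 3 ≤ 2 * r := by
    have h1 : 2 * (p + 3 - r) ≤ (w + 1) * (p + 3 - r) := Nat.mul_le_mul_right _ (by omega)
    omega
  have hPX : PrX p w r := ⟨hw1, hwp, hrb, hr, hp2⟩
  obtain ⟨a1, ha1⟩ := hF p w r hPX hBK
  obtain ⟨a2, ha2⟩ := hX p w r hPX hBK
  refine ⟨max (max a1 a2) 3, fun a ha => ?_⟩
  have h1 : a1 ≤ a := le_trans (le_trans (le_max_left _ _) (le_max_left _ _)) ha
  have h2 : a2 ≤ a := le_trans (le_trans (le_max_right _ _) (le_max_left _ _)) ha
  have h3 : 3 ≤ a := le_trans (le_max_right _ _) ha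
  obtain ⟨R, hR1, hR2, hR3⟩ := ha1 a h1
  refine ⟨R, hR1, ?_, hR3⟩
  intro hrp
  obtain ⟨Q, σ, q1, q2, q3, q4, q5, q6⟩ := ha2 a h2 R hR1 hR2
  have h4 := hC p w a hw1 hwp h3 R Q σ (dl R p r a (un Q)) q1 q3 (by omega) q5 q6
  rw [q2] at h4
  rw [← h4]
  exact ncard_eq_kc R (w + 3)

end Pool.NG7
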